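import Pool.Agent.V11155.PetrieMix
import Pool.Agent.V11155.PetrieComp

/-!
# Acoptic Petrie schemes for products, uniform and star polytopes

The definitions (face systems, flags, adjacency, Petrie schemes, acopticity, cubes,
crosspolytopes, polygons, Cartesian products) are in `Pool.Agent.V11155.PetrieDefs`; the
polytope of a linear reflection diagram is `cosetPoly` in `Pool.Agent.V11155.PetrieStar`.

* (a) Cartesian products of cubes and crosspolytopes have only acoptic Petrie schemes.
* (b) The product of such a polytope with a polygon has only acoptic Petrie schemes if and only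
  if the polygon is a quadrangle; so the answer for products with `4k`-gons is negative, already
  for the octagonal prism, and positive exactly for `k = 1`.
* (c) The `m`-gonal prisms, `m ≠ 4`, (uniform if their lateral faces are squares) have a Petrie
  scheme that is not acoptic.
* (d) Star polygons, the four Kepler-Poinsot polyhedra and the ten regular star 4-polytopes have
  only acoptic Petrie schemes.
-/

namespace Pool.Agent.Results.MP_7f6035_co.AcopticSchemes

open Pool.Agent.V11155.Petrie

/-- `P` is a cube or a crosspolytope (of dimension at least `1`). -/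
def CubeOrCross (P : FaceSys) : Prop :=
  (∃ a, 1 ≤ a ∧ P = cube a) ∨ ∃ b, 1 ≤ b ∧ P = cross b

/-- `P` is a Cartesian product of (one or more) cubes and crosspolytopes. -/
def IsProduct (P : FaceSys) : Prop :=
  ∃ (P₀ : FaceSys) (l : List FaceSys), (∀ R ∈ P₀ :: l, CubeOrCross R) ∧ P = prodList P₀ l

/-- The regular polytope (or star-polytope) with a given Schläfli symbol. -/
noncomputable def regPoly (l : List ℝ) : FaceSys :=
  cosetPoly (l.length + 1) (fun i => l.getD i 2)

/-- The Schläfli symbols of the regular star-polytopes of rank `3` (the Kepler-Poinsot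
polyhedra) and of rank `4`. -/
noncomputable def starSymbols : List (List ℝ) :=
  [[5/2, 5], [5, 5/2], [5/2, 3], [3, 5/2],
   [5/2, 5, 3], [3, 5, 5/2], [5, 5/2, 5], [5, 3, 5/2], [5/2, 3, 5],
   [5/2, 5, 5/2], [5, 5/2, 3], [3, 5/2, 5], [3, 3, 5/2], [5/2, 3, 3]]

theorem good_four : Good (gon 4) (2 * (gon 4).dim) := by
  have h := good_gon (m := 4) (by omega)
  have e : (2 * ((gon 4).dim : ℤ)) = ((4 : ℕ) : ℤ) := rfl
  rw [e]
  exact h

theorem exists_fr_prodList : ∀ (l : List FaceSys) (P₀ : FaceSys),
    (∀ P ∈ P₀ :: l, CubeOrCross P) → ∃ z, Fr (prodList P₀ l) z := by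
  have hbase : ∀ P : FaceSys, CubeOrCross P → ∃ z, Fr P z := by
    rintro P (⟨a, ha, rfl⟩ | ⟨b, hb, rfl⟩)
    · exact exists_fr_cube ha
    · exact exists_fr_cross hb
  have hpoly : ∀ P : FaceSys, CubeOrCross P → ∃ top, Poly P top := by
    rintro P (⟨a, ha, rfl⟩ | ⟨b, hb, rfl⟩)
    · exact ⟨_, poly_cube ha⟩
    · exact ⟨_, poly_cross hb⟩
  intro l
  induction l with
  | nil =>
    intro P₀ h
    exact hbase P₀ (h P₀ (by simp))
  | cons Q l ih =>
    intro P₀ h
    obtain ⟨tP, hP⟩ := hpoly P₀ (h P₀ (by simp))
    obtain ⟨z, hz⟩ := hbase P₀ (h P₀ (by simp))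
    have hl : ∀ P ∈ Q :: l, CubeOrCross P := fun P hP => h P (by
      simp only [List.mem_cons] at hP ⊢
      exact Or.inr hP)
    obtain ⟨tQ, hQ, -⟩ := good_prodList l Q hl
    obtain ⟨z', hz'⟩ := ih Q hl
    -- the word `P^a Q^b`
    have ha := hP.dim_pos
    have hb := hQ.dim_pos
    have hn : (0 : ℤ) < P₀.dim + (prodList Q l).dim := by omega
    set a : ℤ := (P₀.dim : ℤ) with hadef
    set n : ℤ := P₀.dim + (prodList Q l).dim with hndef
    have hstep : ∀ t : ℤ, a * ((t + 1) / n) + min ((t + 1) % n) a =
        a * (t / n) + min (t % n) a ∨ a * ((t + 1) / n) + min ((t + 1) % n) a =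
        a * (t / n) + min (t % n) a + 1 := by
      intro t
      have e1 := Int.emod_add_mul_ediv t n
      have e2 := Int.emod_nonneg t hn.ne'
      have e3 := Int.emod_lt_of_pos t hn
      by_cases h : t % n = n - 1
      · have h1 : t + 1 = 0 + n * (t / n + 1) := by linarith
        have h2 : (t + 1) / n = t / n + 1 := by
          conv_lhs => rw [h1]
          rw [Int.add_mul_ediv_left _ _ hn.ne']
          simp
        have h3 : (t + 1) % n = 0 := by
          conv_lhs => rw [h1]
          simp
        rw [h2, h3, h]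
        have h4 : min (n - 1) a = a := min_eq_right (by omega)
        have h5 : min 0 a = 0 := min_eq_left (by omega)
        rw [h4, h5]
        left; ring
      · have h1 : t + 1 = (t % n + 1) + n * (t / n) := by linarith
        have h4 : 0 ≤ t % n + 1 := by omega
        have h5 : t % n + 1 < n := by omega
        have h2 : (t + 1) / n = t / n := by
          conv_lhs => rw [h1]
          rw [Int.add_mul_ediv_left _ _ hn.ne', Int.ediv_eq_zero_of_lt h4 h5, zero_add]
        have h3 : (t + 1) % n = t % n + 1 := by
          conv_lhs => rw [h1]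
          rw [Int.add_mul_emod_self_left, Int.emod_eq_of_lt h4 h5]
        rw [h2, h3]
        rcases le_or_gt (t % n + 1) a with h6 | h6
        · rw [min_eq_left h6, min_eq_left (by omega)]
          right; ring
        · rw [min_eq_right h6.le, min_eq_right (by omega)]
          left; rfl
    have hm := mix hP hQ hz hz' (N := fun t => a * (t / n) + min (t % n) a)
      (M := fun t => t - (a * (t / n) + min (t % n) a)) (fun t => by ring) hstep (fun t => by
        have h2 : (t + n) / n = t / n + 1 := by
          have : t + n = t + n * 1 := by ring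
          rw [this, Int.add_mul_ediv_left _ _ hn.ne']
        have h3 : (t + n) % n = t % n := by simp
        change a * ((t + n) / n) + min ((t + n) % n) a = a * (t / n) + min (t % n) a + a
        rw [h2, h3]; ring)
    exact ⟨_, hm⟩

/-- **Main theorem.** -/
theorem result :
    -- (a) products of cubes and crosspolytopes: yes
    (∀ P, IsProduct P → AllAcoptic P) ∧
    -- (b) products of these with `m`-gons: only for `m = 4`
    (∀ P, IsProduct P → ∀ m, 3 ≤ m → (AllAcoptic (prod P (gon m)) ↔ m = 4)) ∧
    (∀ d k, 1 ≤ d → 1 ≤ k → (AllAcoptic (prod (cube d) (gon (4 * k))) ↔ k = 1) ∧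
      (AllAcoptic (prod (cross d) (gon (4 * k))) ↔ k = 1)) ∧
    -- (c) prisms: no
    (∀ m, 3 ≤ m → m ≠ 4 → ¬ AllAcoptic (prod (cube 1) (gon m))) ∧
    -- (d) regular star-polytopes: yes
    (∀ m, 3 ≤ m → AllAcoptic (gon m)) ∧
    (∀ l ∈ starSymbols, AllAcoptic (regPoly l)) := by
  have hb : ∀ P, IsProduct P → ∀ m, 3 ≤ m → (AllAcoptic (prod P (gon m)) ↔ m = 4) := by
    rintro P ⟨P₀, l, hl, rfl⟩ m hm
    obtain ⟨top, hP, hG⟩ := good_prodList l P₀ hl
    constructor
    · intro h
      by_contra hne
      exact not_allAcoptic_prod_gon hP hG (exists_fr_prodList l P₀ hl) hm hne h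
    · rintro rfl
      exact (Good.prod hP (poly_gon 4) le_rfl hG good_four).allAcoptic (hP.prod (poly_gon 4))
  refine ⟨?_, hb, ?_, ?_, ?_, ?_⟩
  · rintro P ⟨P₀, l, hl, rfl⟩
    obtain ⟨top, hP, hG⟩ := good_prodList l P₀ hl
    exact hG.allAcoptic hP
  · intro d k hd hk
    have h1 : IsProduct (cube d) :=
      ⟨cube d, [], by simp [CubeOrCross]; exact Or.inl ⟨d, hd, rfl⟩, rfl⟩
    have h2 : IsProduct (cross d) :=
      ⟨cross d, [], by simp [CubeOrCross]; exact Or.inr ⟨d, hd, rfl⟩, rfl⟩
    rw [hb _ h1 (4 * k) (by omega), hb _ h2 (4 * k) (by omega)]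
    omega
  · intro m hm hne h
    have h1 : IsProduct (cube 1) :=
      ⟨cube 1, [], by simp [CubeOrCross]; exact Or.inl ⟨1, le_rfl, rfl⟩, rfl⟩
    exact hne ((hb _ h1 m hm).1 h)
  · intro m hm
    exact (good_gon hm).allAcoptic (poly_gon m)
  · intro l hl
    simp only [starSymbols, List.mem_cons, List.not_mem_nil, or_false] at hl
    rcases hl with rfl | rfl | rfl | rfl | rfl | rfl | rfl | rfl | rfl | rfl | rfl | rfl | rfl | rfl
    · exact star_0
    · exact star_1
    · exact star_2
    · exact star_3
    · exact star_4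
    · exact star_5
    · exact star_6
    · exact star_7
    · exact star_8
    · exact star_9
    · exact star_10
    · exact star_11
    · exact star_12
    · exact star_13

end Pool.Agent.Results.MP_7f6035_co.AcopticSchemes
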